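import Pool.Agent.H98.S4.Targets

/-!
# MP_eb32d7_co (strong colouring, maximum degree two): module KE (the Kempe swap)
-/

set_option autoImplicit false

namespace Pool.Agent.H3.S4

open Finset Pool.Agent.H98.S4

/-- the vertices of the Kempe component -/
inductive AA {V β : Type} (G : SimpleGraph V) (f : V → β) (c : V → Fin 3) (g : Fin 3)
    (F : Finset V) (P : Finset β) (sg : β → V) : V → Prop
  | root (b : β) : b ∈ P → AA G f c g F P sg (sg b)
  | nbr (s w : V) : AA G f c g F P sg s → s ∈ F → G.Adj s w → w ∉ F → c w = g →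
      AA G f c g F P sg w
  | blk (w x : V) : AA G f c g F P sg w → w ∉ F → c w = g → x ∈ F → f x = f w →
      AA G f c g F P sg x

theorem castSucc_ne_three (i : Fin 3) : i.castSucc ≠ (3 : Fin 4) := (Fin.castSucc_lt_last i).ne

theorem s4_KE : T_KE := by
  classical
  intro V β κ _ _ _ _ G f cp K P F _ _ hS ⟨c, g, hc1, hc2, hc3⟩
  rcases isEmpty_or_nonempty V with hV | hV
  · exact ⟨fun v => (hV.false v).elim, fun u => (hV.false u).elim, fun u => (hV.false u).elim⟩
  have hsg : ∀ b : β, ∃ x : V, b ∈ P → x ∈ F ∧ f x = b := by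
    intro b
    by_cases hb : b ∈ P
    · have h2 := hS.two b hb
      have h3 : 0 < (F.filter (fun x => f x = b)).card := by omega
      obtain ⟨x, hx⟩ := Finset.card_pos.1 h3
      rw [Finset.mem_filter] at hx
      exact ⟨x, fun _ => hx⟩
    · exact ⟨hV.some, fun h => absurd h hb⟩
  choose sg hsg using hsg
  let A : V → Prop := AA G f c g F P sg
  have f1 : ∀ x, A x → cp x ∈ K := by
    intro x hx
    induction hx with
    | root b hb =>
      apply hS.inK
      rw [(hsg b hb).2]
      exact hb
    | nbr s w _ _ hsw _ _ ih =>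
      rw [← hS.adj s w hsw]
      exact ih
    | blk w x _ _ _ hx hxw ih => exact hS.bK x hx w ih hxw
  have f2 : ∀ x, A x → x ∈ F →
      (∃ b ∈ P, x = sg b) ∨ (∃ w, A w ∧ w ∉ F ∧ c w = g ∧ f w = f x) := by
    intro x hx hxF
    cases hx with
    | root b hb => exact Or.inl ⟨b, hb, rfl⟩
    | nbr s w _ _ _ hw _ => exact absurd hxF hw
    | blk w x hw hwF hcw _ hxw => exact Or.inr ⟨w, hw, hwF, hcw, hxw.symm⟩
  have f3 : ∀ x, A x → x ∉ F → c x = g ∧ ∃ s ∈ F, A s ∧ G.Adj s x := by
    intro x hx hxF
    cases hx with
    | root b hb => exact absurd (hsg b hb).1 hxF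
    | nbr s w hs hsF hsw _ hcw => exact ⟨hcw, s, hsF, hs, hsw⟩
    | blk w x _ _ _ hx' _ => exact absurd hx' hxF
  -- an `F`-vertex of `A` in a block of `P`
  have f4 : ∀ x, A x → x ∈ F → f x ∈ P → x = sg (f x) := by
    intro x hx hxF hxP
    rcases f2 x hx hxF with ⟨b, hb, rfl⟩ | ⟨w, _, hwF, hcw, hfw⟩
    · rw [(hsg b hb).2]
    · exact absurd hcw (hc3 w hwF (by rw [hfw]; exact hxP))
  let col : V → Fin 4 := fun v =>
    if A v then (if v ∈ F then g.castSucc else 3) else (if v ∈ F then 3 else (c v).castSucc)
  have c1 : ∀ v, A v → v ∈ F → col v = g.castSucc := fun v h1 h2 => by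
    simp only [col, if_pos h1, if_pos h2]
  have c2 : ∀ v, A v → v ∉ F → col v = 3 := fun v h1 h2 => by
    simp only [col, if_pos h1, if_neg h2]
  have c3 : ∀ v, ¬ A v → v ∈ F → col v = 3 := fun v h1 h2 => by
    simp only [col, if_neg h1, if_pos h2]
  have c4 : ∀ v, ¬ A v → v ∉ F → col v = (c v).castSucc := fun v h1 h2 => by
    simp only [col, if_neg h1, if_neg h2]
  have hinj : ∀ i j : Fin 3, i.castSucc = j.castSucc → i = j := fun i j h =>
    Fin.castSucc_injective 3 h
  -- adjacency, one vertex in `F`
  have e1 : ∀ u v, G.Adj u v → u ∈ F → v ∉ F → col u ≠ col v := by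
    intro u v huv hu hv
    by_cases hAu : A u <;> by_cases hAv : A v
    · rw [c1 u hAu hu, c2 v hAv hv]
      exact castSucc_ne_three g
    · rw [c1 u hAu hu, c4 v hAv hv]
      intro h
      exact hAv (AA.nbr u v hAu hu huv hv (hinj _ _ h).symm)
    · exfalso
      obtain ⟨_, s, hsF, hs, hsv⟩ := f3 v hAv hv
      have h1 : cp s = cp u := (hS.adj s v hsv).trans (hS.adj u v huv).symm
      have h2 := hS.one s hsF u hu h1 (f1 s hs)
      rw [← h2] at hAu
      exact hAu hs
    · rw [c3 u hAu hu, c4 v hAv hv]
      exact (castSucc_ne_three _).symm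
  have e2 : ∀ u v, f u = f v → u ∈ F → v ∉ F → col u ≠ col v := by
    intro u v huv hu hv
    by_cases hAu : A u <;> by_cases hAv : A v
    · rw [c1 u hAu hu, c2 v hAv hv]
      exact castSucc_ne_three g
    · rw [c1 u hAu hu, c4 v hAv hv]
      intro h
      have hcv : c v = g := (hinj _ _ h).symm
      rcases f2 u hAu hu with ⟨b, hb, hub⟩ | ⟨w, hAw, hwF, hcw, hfw⟩
      · have h1 : f v ∈ P := by
          rw [← huv, hub, (hsg b hb).2]
          exact hb
        exact hc3 v hv h1 hcv
      · by_cases hwv : w = v
        · rw [hwv] at hAw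
          exact hAv hAw
        · exact hc2 w v hwF hv (hfw.trans huv) hwv (hcw.trans hcv.symm)
    · exfalso
      obtain ⟨hcv, _⟩ := f3 v hAv hv
      exact hAu (AA.blk v u hAv hv hcv hu huv)
    · rw [c3 u hAu hu, c4 v hAv hv]
      exact (castSucc_ne_three _).symm
  refine ⟨col, ?_, ?_⟩
  · intro u v huv
    by_cases hu : u ∈ F <;> by_cases hv : v ∈ F
    · exact absurd huv (hS.ind u hu v hv)
    · exact e1 u v huv hu hv
    · exact (e1 v u huv.symm hv hu).symm
    · by_cases hAu : A u <;> by_cases hAv : A v
      · exact absurd ((f3 u hAu hu).1.trans (f3 v hAv hv).1.symm) (hc1 u v hu hv huv)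
      · rw [c2 u hAu hu, c4 v hAv hv]
        exact (castSucc_ne_three _).symm
      · rw [c4 u hAu hu, c2 v hAv hv]
        exact castSucc_ne_three _
      · rw [c4 u hAu hu, c4 v hAv hv]
        intro h
        exact hc1 u v hu hv huv (hinj _ _ h)
  · intro u v huv hne
    by_cases hu : u ∈ F <;> by_cases hv : v ∈ F
    · have hP : f u ∈ P := by
        by_contra h
        exact hne (hS.uniq u hu v hv huv h)
      have hPv : f v ∈ P := by rw [← huv]; exact hP
      have h2 := hS.two (f u) hP
      have hsgF := hsg (f u) hP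
      -- `sg (f u)` is `u` or `v`
      have h3 : sg (f u) = u ∨ sg (f u) = v := by
        by_contra hcon
        rw [not_or] at hcon
        have h4 : ({u, v, sg (f u)} : Finset V) ⊆ F.filter (fun x => f x = f u) := by
          intro x hx
          rw [Finset.mem_insert, Finset.mem_insert, Finset.mem_singleton] at hx
          rw [Finset.mem_filter]
          rcases hx with rfl | rfl | rfl
          · exact ⟨hu, rfl⟩
          · exact ⟨hv, huv.symm⟩
          · exact hsgF
        have h5 : ({u, v, sg (f u)} : Finset V).card = 3 := by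
          rw [Finset.card_insert_of_notMem, Finset.card_insert_of_notMem,
            Finset.card_singleton]
          · rw [Finset.mem_singleton]
            exact fun h => hcon.2 h.symm
          · rw [Finset.mem_insert, Finset.mem_singleton, not_or]
            exact ⟨hne, fun h => hcon.1 h.symm⟩
        have h6 := Finset.card_le_card h4
        omega
      have hroot : A (sg (f u)) := AA.root (f u) hP
      rcases h3 with h3 | h3
      · have hAu : A u := by rw [h3] at hroot; exact hroot
        have hAv : ¬ A v := by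
          intro h
          have := f4 v h hv hPv
          rw [← huv, h3] at this
          exact hne this.symm
        rw [c1 u hAu hu, c3 v hAv hv]
        exact castSucc_ne_three _
      · have hAv : A v := by rw [h3] at hroot; exact hroot
        have hAu : ¬ A u := by
          intro h
          have := f4 u h hu hP
          rw [h3] at this
          exact hne this
        rw [c3 u hAu hu, c1 v hAv hv]
        exact (castSucc_ne_three _).symm
    · exact e2 u v huv hu hv
    · exact (e2 v u huv.symm hv hu).symm
    · by_cases hAu : A u <;> by_cases hAv : A v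
      · exact absurd ((f3 u hAu hu).1.trans (f3 v hAv hv).1.symm) (hc2 u v hu hv huv hne)
      · rw [c2 u hAu hu, c4 v hAv hv]
        exact (castSucc_ne_three _).symm
      · rw [c4 u hAu hu, c2 v hAv hv]
        exact castSucc_ne_three _
      · rw [c4 u hAu hu, c4 v hAv hv]
        intro h
        exact hc2 u v hu hv huv hne (hinj _ _ h)

end Pool.Agent.H3.S4
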